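import Pool.Agent.Lib.MP_bbd4b9_ag.SP.Ab
import Pool.Agent.Lib.MP_bbd4b9_ag.NH.All

/-! Compact Kaehler manifolds whose Kaehler form is exact on the universal covering and whose
fundamental group acts through a finite group on its commensurated nilpotent subgroups: the Kodaira
dimension is at least the numerical dimension of the canonical class. -/

namespace Pool.Agent.Lib.MP_813db1_ag.Old.FiniteMonodromy

open Filter Pool.Agent.Lib.MP_813db1_ag.HS Pool.Agent.Lib.MP_813db1_ag.AS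
  Pool.Agent.Lib.MP_813db1_ag.CM Pool.Agent.Lib.MP_bbd4b9_ag.SP Pool.Agent.Lib.MP_bbd4b9_ag.NH
open scoped ContDiff Manifold

theorem result (n : ℕ) (hn : 0 < n) (X Y G : Type) [TopologicalSpace X] [T2Space X]
    [CompactSpace X] [ConnectedSpace X] [MeasurableSpace X] [BorelSpace X]
    [ChartedSpace (Fin n → ℂ) X] [IsManifold 𝓘(ℂ, Fin n → ℂ) ω X] [TopologicalSpace Y]
    [SimplyConnectedSpace Y] [Group G] [MulAction G Y] (K : Kahler (Fin n) X) (p : Y → X)
    (hp : IsQuotientCoveringMap p G) (hω : Exact K p) (hG : VCen G) :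
    ∃ N : ℕ, 0 < N ∧ ∃ c : ℝ, 0 < c ∧ ∀ᶠ a : ℕ in atTop, ∃ (Q : ℕ)
      (s : Fin Q → OpenPartialHomeomorph X (Fin n → ℂ) → (Fin n → ℂ) → ℂ),
      c * (a : ℝ) ^ K.numDim ≤ Q ∧ (∀ j, IsPluri (N * a) (s j)) ∧ Indep s :=
  have : Nonempty (Fin n) := ⟨⟨0, hn⟩⟩
  abund (top2 fgN K hp hω fun H _ _ h => canAll rkN canN (hG.sub H) h)

end Pool.Agent.Lib.MP_813db1_ag.Old.FiniteMonodromy
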