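import Pool.Agent.Lib.MP_813db1_ag.VB5

/-!
MP_813db1_ag: non-vanishing for quotients of products of curves by a finite group acting
faithfully on every factor, when four of the factors are not `(2, 3, 6)` covers of the line.
-/

namespace Pool.Agent.Lib.MP_813db1_ag.Old.PQFaithful

open Pool.Agent.Lib.MP_813db1_ag IntermediateField

theorem result {L : Type} [Field L] [Algebra ℂ L] (G : Subgroup (L ≃ₐ[ℂ] L)) [Finite G]
    {n : ℕ} (C : Fin n → IntermediateField ℂ L) (t : ∀ i, C i)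
    (ht : AlgebraicIndependent ℂ fun i => (t i : L)) (hL : ⨆ i, C i = ⊤)
    (hC : ∀ i, ∀ g ∈ G, ∀ x ∈ C i, g x ∈ C i)
    (hq : ∀ i, C i ⊓ fixedField G = adjoin ℂ {(t i : L)})
    (hf : ∀ i, ∀ g ∈ G, (∀ x ∈ C i, g x = x) → g = 1)
    (hκ : ∀ i, ∃ D : Module.Basis (Fin 1) (C i) (Derivation ℂ (C i) (C i)), QEffective D)
    (σ : Fin 4 ↪ Fin n)
    (h6 : ∀ k a b c, ram (t (σ k)) a = 2 → ram (t (σ k)) b = 3 → ram (t (σ k)) c = 6 →
      ∃ p, 2 ≤ ram (t (σ k)) p ∧ p ≠ a ∧ p ≠ b ∧ p ≠ c)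
    (D : Module.Basis (Fin n) (fixedField G) (Derivation ℂ (fixedField G) (fixedField G))) :
    QEffective D :=
  PQ.main3 C t ht hL hC hq hf (fun i => (hκ i).elim fun D' h => ⟨D', h⟩) σ σ.injective
    (Set.forall_mem_range.2 h6) D D.linearIndependent

end Pool.Agent.Lib.MP_813db1_ag.Old.PQFaithful
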