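import Pool.Agent.Lib.MP_813db1_ag.PQ5

/-!
MP_813db1_ag: non-vanishing for quotients of products of curves by a finite group, when every
element with a fixed point moves factors of total weight at least one.
-/

namespace Pool.Agent.Lib.MP_813db1_ag.Old.ProductQuotient

open Pool.Agent.Lib.MP_813db1_ag IntermediateField

open Classical in
theorem result {L : Type} [Field L] [Algebra ℂ L] (G : Subgroup (L ≃ₐ[ℂ] L)) [Finite G]
    {n : ℕ} (C : Fin n → IntermediateField ℂ L) (t : ∀ i, C i)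
    (ht : AlgebraicIndependent ℂ fun i => (t i : L)) (hL : ⨆ i, C i = ⊤)
    (hC : ∀ i, ∀ g ∈ G, ∀ x ∈ C i, g x ∈ C i)
    (hq : ∀ i, C i ⊓ fixedField G = adjoin ℂ {(t i : L)})
    (hκ : ∀ i, ∃ D : Module.Basis (Fin 1) (C i) (Derivation ℂ (C i) (C i)), QEffective D)
    (hw : ∀ g ∈ G, g ≠ 1 → (∀ i, ∃ R : ValuationSubring (C i), IsPlace R ∧
      ∀ x y : C i, g x = y → (x ∈ R ↔ y ∈ R)) →
      1 ≤ ∑ i with ∃ x ∈ C i, g x ≠ x, weight (t i))
    (D : Module.Basis (Fin n) (fixedField G) (Derivation ℂ (fixedField G) (fixedField G))) :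
    QEffective D :=
  PQ.main C t ht hL hC hq (fun i => (hκ i).elim fun D' h => ⟨D', h⟩) hw D D.linearIndependent

end Pool.Agent.Lib.MP_813db1_ag.Old.ProductQuotient
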