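import Pool.Agent.Lib.MP_813db1_ag.Core
import Pool.Agent.Lib.MP_813db1_ag.Bridge

/-!
MP_813db1_ag: non-vanishing for the components of Khovanskii nondegenerate complete
intersections in algebraic tori, in any dimension and codimension.
-/

namespace Pool.Agent.Lib.MP_813db1_ag.Old.ToricCI

open Pool.Agent.Lib.MP_813db1_ag

theorem result {K : Type} [Field K] [Algebra ℂ K] {r n : ℕ}
    (f : Fin r → (Fin (r + n) → ℤ) →₀ ℂ) (hf : Nondeg f) (x : Fin (r + n) → Kˣ)
    (hx : ∀ i, ∑ q ∈ (f i).support, algebraMap ℂ K (f i q) * mono x q = 0)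
    (hgen : IntermediateField.adjoin ℂ (Set.range fun j => (x j : K)) = ⊤)
    (D : Module.Basis (Fin n) K (Derivation ℂ K K)) :
    PseudoEffective D ↔ QEffective D := by
  refine ⟨fun h => ?_, psef_of_qeff D⟩
  have := support_nonempty f hf x hx
  let S : Sys ℂ K n (Fin (r + n) → ℤ) (Fin r) (fun i => (f i).support) :=
    { e := fun _ q => q.1
      c := fun i q => f i q.1
      χ := monoChar x
      gen := by
        rw [eq_top_iff, ← hgen]
        apply IntermediateField.adjoin.mono
        rintro _ ⟨j, rfl⟩
        refine ⟨Pi.single j 1, ?_⟩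
        change mono x _ = _
        rw [mono, Fintype.prod_eq_single j (fun i hi => by simp [hi])]
        simp
      rel := fun i => (Finset.sum_coe_sort (f i).support
        (fun q => algebraMap ℂ K (f i q) * mono x q)).trans (hx i)
      nd := nd_of_nondeg f hf x hx
      b := (Pi.basisFun ℤ (Fin (r + n))).reindex finSumFinEquiv.symm
      D := D }
  exact qeff_of D (core _ _ _ _ S rfl (psefV_of D h))

end Pool.Agent.Lib.MP_813db1_ag.Old.ToricCI
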